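import Pool.Agent.E8helper4.FV.Stm2

/-!
# Project FV2: the power series of the kernels (K1b)
-/

set_option autoImplicit false

open Complex MeasureTheory Metric Set Filter Topology ComplexConjugate

namespace Pool.Agent.E8helper99.FV

open Pool.Agent.E8helper4.FV

/-- orthogonality -/
lemma orth (k : ℤ) : ∫ τ in (0 : ℝ)..(2 * Real.pi), exp ((k : ℂ) * (τ : ℂ) * I) =
    if k = 0 then 2 * Real.pi else 0 := by
  split_ifs with h
  · rw [h]
    simp
  · have h1 : ((k : ℂ) * I) ≠ 0 := mul_ne_zero (by exact_mod_cast h) I_ne_zero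
    have h2 := integral_exp_mul_complex (a := 0) (b := 2 * Real.pi) h1
    have e : (fun τ : ℝ => exp ((k : ℂ) * (τ : ℂ) * I)) = fun τ : ℝ => exp ((k : ℂ) * I * τ) := by
      funext τ
      congr 1
      ring
    rw [e, h2]
    have e2 : (k : ℂ) * I * ((2 * Real.pi : ℝ) : ℂ) = k * (2 * Real.pi * I) := by
      push_cast
      ring
    rw [e2, exp_int_mul_two_pi_mul_I]
    simp

/-- the term of the double series -/
noncomputable def tmK (m : ℤ) (A Y : ℂ) (p : ℕ × ℕ) : ℂ :=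
  if (p.2 : ℤ) = p.1 + m then Y ^ p.1 * A ^ p.2 / ((p.1.factorial : ℂ) * (p.2.factorial : ℂ)) else 0

lemma tmK_pos {m : ℤ} {A Y : ℂ} {p : ℕ × ℕ} (h : (p.2 : ℤ) = p.1 + m) :
    tmK m A Y p = Y ^ p.1 * A ^ p.2 / ((p.1.factorial : ℂ) * (p.2.factorial : ℂ)) := if_pos h

lemma tmK_neg {m : ℤ} {A Y : ℂ} {p : ℕ × ℕ} (h : ¬ (p.2 : ℤ) = p.1 + m) :
    tmK m A Y p = 0 := if_neg h

lemma sumE (z : ℂ) : Summable fun i : ℕ => ‖z ^ i / (i.factorial : ℂ)‖ := by
  have := Real.summable_pow_div_factorial ‖z‖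
  refine this.congr fun i => ?_
  rw [norm_div, norm_pow, RCLike.norm_natCast]

lemma hasE (z : ℂ) : HasSum (fun i : ℕ => z ^ i / (i.factorial : ℂ)) (exp z) := by
  rw [Complex.exp_eq_exp_ℂ]
  exact NormedSpace.expSeries_div_hasSum_exp z

lemma sumB (A Y : ℂ) : Summable fun p : ℕ × ℕ =>
    ‖Y ^ p.1 / (p.1.factorial : ℂ)‖ * ‖A ^ p.2 / (p.2.factorial : ℂ)‖ :=
  (sumE Y).mul_of_nonneg (sumE A) (fun _ => norm_nonneg _) fun _ => norm_nonneg _

/-- one term with its character -/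
noncomputable def ft (m : ℤ) (A Y : ℂ) (p : ℕ × ℕ) (τ : ℝ) : ℂ :=
  Y ^ p.1 * A ^ p.2 / ((p.1.factorial : ℂ) * (p.2.factorial : ℂ)) *
      exp ((((p.2 : ℤ) - p.1 - m : ℤ) : ℂ) * (τ : ℂ) * I)

lemma ft_eq (m : ℤ) (A Y : ℂ) (p : ℕ × ℕ) (τ : ℝ) : ft m A Y p τ =
    (exp (-((τ : ℂ) * I)) * Y) ^ p.1 / (p.1.factorial : ℂ) *
      ((exp ((τ : ℂ) * I) * A) ^ p.2 / (p.2.factorial : ℂ)) * exp (-((m : ℂ) * (τ : ℂ) * I)) := by
  unfold ft
  rw [mul_pow, mul_pow, ← exp_nat_mul, ← exp_nat_mul]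
  have e2 : exp ((((p.2 : ℤ) - p.1 - m : ℤ) : ℂ) * (τ : ℂ) * I) =
      exp ((p.1 : ℂ) * (-((τ : ℂ) * I))) * exp ((p.2 : ℂ) * ((τ : ℂ) * I)) *
        exp (-((m : ℂ) * (τ : ℂ) * I)) := by
    rw [← exp_add, ← exp_add]
    congr 1
    push_cast
    ring
  rw [e2]
  ring

/-- the pointwise expansion -/
lemma ptw (m : ℤ) (A Y : ℂ) (τ : ℝ) : HasSum (fun p : ℕ × ℕ => ft m A Y p τ)
    (exp (exp ((τ : ℂ) * I) * A + exp (-((τ : ℂ) * I)) * Y - (m : ℂ) * (τ : ℂ) * I)) := by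
  have hsu := summable_mul_of_summable_norm
    (f := fun i : ℕ => (exp (-((τ : ℂ) * I)) * Y) ^ i / (i.factorial : ℂ))
    (g := fun i : ℕ => (exp ((τ : ℂ) * I) * A) ^ i / (i.factorial : ℂ)) (sumE _) (sumE _)
  have h1 := HasSum.mul (hasE (exp (-((τ : ℂ) * I)) * Y)) (hasE (exp ((τ : ℂ) * I) * A)) hsu
  have h2 := h1.mul_right (exp (-((m : ℂ) * (τ : ℂ) * I)))
  rw [← exp_add, ← exp_add] at h2
  have e1 : exp (-((τ : ℂ) * I)) * Y + exp ((τ : ℂ) * I) * A + -((m : ℂ) * (τ : ℂ) * I) =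
    exp ((τ : ℂ) * I) * A + exp (-((τ : ℂ) * I)) * Y - (m : ℂ) * (τ : ℂ) * I := by ring
  rw [e1] at h2
  have e3 : (fun p : ℕ × ℕ => ft m A Y p τ) = _ := funext fun p => ft_eq m A Y p τ
  rw [e3]
  exact h2

/-- the double series -/
lemma hasSum_two (m : ℤ) (A Y : ℂ) : HasSum (tmK m A Y) (kp m A Y) := by
  have key := intervalIntegral.hasSum_integral_of_dominated_convergence (a := 0)
    (b := 2 * Real.pi) (μ := volume) (ι := ℕ × ℕ) (F := ft m A Y)
    (f := fun τ => exp (exp ((τ : ℂ) * I) * A + exp (-((τ : ℂ) * I)) * Y - (m : ℂ) * (τ : ℂ) * I))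
    (fun p _ => ‖Y ^ p.1 / (p.1.factorial : ℂ)‖ * ‖A ^ p.2 / (p.2.factorial : ℂ)‖)
    (fun p => by
      apply Continuous.aestronglyMeasurable
      unfold ft
      fun_prop)
    (fun p => Filter.Eventually.of_forall fun τ _ => by
      have e : (((p.2 : ℤ) - p.1 - m : ℤ) : ℂ) * (τ : ℂ) * I =
        ((((p.2 : ℤ) - p.1 - m : ℤ) : ℝ) * τ : ℝ) * I := by push_cast; ring
      unfold ft
      rw [norm_mul, e, Complex.norm_exp_ofReal_mul_I, mul_one, norm_div, norm_mul, norm_mul,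
        norm_div, norm_div, mul_div_mul_comm])
    (Filter.Eventually.of_forall fun τ _ => sumB A Y)
    intervalIntegrable_const
    (Filter.Eventually.of_forall fun τ _ => ptw m A Y τ)
  have key2 := key.mul_left (1 / (2 * (Real.pi : ℂ)))
  have hpi : (Real.pi : ℂ) ≠ 0 := by exact_mod_cast Real.pi_ne_zero
  have e : tmK m A Y = fun p => 1 / (2 * (Real.pi : ℂ)) *
      ∫ τ in (0 : ℝ)..(2 * Real.pi), ft m A Y p τ := by
    funext p
    unfold ft
    rw [intervalIntegral.integral_const_mul, orth]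
    by_cases h : (p.2 : ℤ) = p.1 + m
    · rw [tmK_pos h, if_pos (by omega)]
      push_cast
      field_simp
    · rw [tmK_neg h, if_neg (by omega)]
      simp
  rw [e]
  exact key2

/-- the power series for a natural index -/
lemma hasSum_nat (n : ℕ) (A Y : ℂ) : HasSum (fun i : ℕ =>
    Y ^ i * A ^ (i + n) / ((i.factorial : ℂ) * ((i + n).factorial : ℂ))) (kp n A Y) := by
  have hinj : Function.Injective fun i : ℕ => ((i, i + n) : ℕ × ℕ) := by
    intro a b h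
    exact congrArg Prod.fst h
  have h := (hinj.hasSum_iff (f := tmK n A Y) (a := kp n A Y) (by
    rintro ⟨i, j⟩ hx
    apply tmK_neg
    intro h
    apply hx
    refine ⟨i, ?_⟩
    simp only at h
    simp only [Prod.mk.injEq, true_and]
    omega)).2 (hasSum_two n A Y)
  have e : (fun i : ℕ => Y ^ i * A ^ (i + n) / ((i.factorial : ℂ) * ((i + n).factorial : ℂ))) =
      tmK n A Y ∘ fun i : ℕ => ((i, i + n) : ℕ × ℕ) := by
    funext i
    rw [Function.comp_apply, tmK_pos (by push_cast; ring)]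
  rw [e]
  exact h

/-- symmetry -/
lemma kp_symm (m : ℤ) (A Y : ℂ) : kp m A Y = kp (-m) Y A := by
  have h1 := (Equiv.prodComm ℕ ℕ).hasSum_iff (f := tmK (-m) Y A) (a := kp (-m) Y A) |>.2
    (hasSum_two (-m) Y A)
  apply (hasSum_two m A Y).unique
  have e : tmK m A Y = tmK (-m) Y A ∘ (Equiv.prodComm ℕ ℕ) := by
    funext p
    obtain ⟨i, j⟩ := p
    have e3 : (tmK (-m) Y A ∘ (Equiv.prodComm ℕ ℕ)) (i, j) = tmK (-m) Y A (j, i) := rfl
    rw [e3]
    by_cases h : (j : ℤ) = i + m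
    · rw [tmK_pos (p := (i, j)) h, tmK_pos (p := (j, i)) (by simp only; omega)]
      ring
    · rw [tmK_neg (p := (i, j)) h, tmK_neg (p := (j, i)) (by simp only; omega)]
  rw [e]
  exact h1

/-- the values at `A = 0` -/
lemma kp_zero_pos {m : ℤ} (hm : 0 < m) (Y : ℂ) : kp m 0 Y = 0 := by
  apply (hasSum_two m 0 Y).unique
  have e : tmK m 0 Y = fun _ => 0 := by
    funext p
    by_cases h : (p.2 : ℤ) = p.1 + m
    · rw [tmK_pos h]
      have : p.2 ≠ 0 := by omega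
      rw [zero_pow this]
      simp
    · exact tmK_neg h
  rw [e]
  exact hasSum_zero

lemma kp_zero_neg (n : ℕ) (Y : ℂ) : kp (-n) 0 Y = Y ^ n / (n.factorial : ℂ) := by
  apply (hasSum_two (-n) 0 Y).unique
  have h := hasSum_single (f := tmK (-n) 0 Y) (n, 0) (by
    rintro ⟨i, j⟩ hx
    by_cases h : (j : ℤ) = i + -n
    · rw [tmK_pos (p := (i, j)) h]
      have : j ≠ 0 := by
        rintro rfl
        apply hx
        simp only [Prod.mk.injEq, and_true]
        push_cast at h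
        omega
      simp only
      rw [zero_pow this]
      simp
    · exact tmK_neg (p := (i, j)) h)
  have e : tmK (-n) 0 Y (n, 0) = Y ^ n / (n.factorial : ℂ) := by
    rw [tmK_pos (by simp)]
    simp
  rw [e] at h
  exact h

/-- scaling -/
lemma kp_scale (m : ℤ) (c A Y : ℂ) (hc : c ≠ 0) : kp m (c * A) Y = c ^ m * kp m A (c * Y) := by
  apply (hasSum_two m (c * A) Y).unique
  have e : tmK m (c * A) Y = fun p => c ^ m * tmK m A (c * Y) p := by
    funext p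
    by_cases h : (p.2 : ℤ) = p.1 + m
    · rw [tmK_pos h, tmK_pos h]
      have e : c ^ p.2 = c ^ m * c ^ p.1 := by
        rw [← zpow_natCast, ← zpow_natCast, ← zpow_add₀ hc]
        congr 1
        omega
      rw [mul_pow, mul_pow, e]
      ring
    · rw [tmK_neg h, tmK_neg h, mul_zero]
  rw [e]
  exact (hasSum_two m A (c * Y)).mul_left (c ^ m)

/-- the relation with the library kernel -/
lemma kp_kap (a : ℝ) (A ξ : ℂ) (ha : 0 < a) :
    -(a : ℂ) * (ξ ^ 2 * Pool.Agent.Y245.SC.kap a (ξ * (-A))) = kp (-2) A ((a : ℂ) * ξ) := by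
  have h1 := ((Pool.Agent.Y245.SC.t_KAP a ha.le).2.2 (ξ * (-A))).mul_left (ξ ^ 2)
  have h2 := h1.mul_left (-(a : ℂ))
  rw [kp_symm]
  have h3 := hasSum_nat 2 ((a : ℂ) * ξ) A
  have h4 : kp (-(-2)) ((a : ℂ) * ξ) A = kp ((2 : ℕ) : ℤ) ((a : ℂ) * ξ) A := by norm_num
  rw [h4]
  apply h2.unique
  have e0 : (fun i : ℕ => -(a : ℂ) * (ξ ^ 2 * ((-(a : ℂ)) ^ (i + 1) * (ξ * -A) ^ i /
      ((i.factorial : ℂ) * ((i + 2).factorial : ℂ))))) =
      fun i : ℕ => A ^ i * ((a : ℂ) * ξ) ^ (i + 2) / ((i.factorial : ℂ) * ((i + 2).factorial : ℂ)) := by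
    funext k
    have e : (-(a : ℂ)) * (-(a : ℂ)) ^ (k + 1) * (-1) ^ k = (a : ℂ) ^ (k + 2) := by
      have : (-(a : ℂ)) * (-(a : ℂ)) ^ (k + 1) * (-1) ^ k = ((-(a : ℂ)) * (-1)) ^ k *
          (-(a : ℂ)) ^ 2 := by
        rw [mul_pow]
        ring
      rw [this, show (-(a : ℂ)) * (-1) = a by ring]
      ring
    have e2 : (ξ * (-A)) ^ k = (-1) ^ k * (ξ ^ k * A ^ k) := by
      rw [← mul_pow, ← mul_pow]
      congr 1
      ring
    rw [e2, mul_pow, ← e]
    ring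
  rw [e0]
  exact h3

/-- K1b -/
theorem t_K1b : K1b := by
  refine ⟨hasSum_nat, fun Y => ⟨?_, ?_, ?_⟩, fun m hm Y => kp_zero_pos hm Y,
    fun m c A Y hc => kp_scale m c A Y hc, kp_kap⟩
  · have := kp_zero_neg 0 Y
    simpa using this
  · have := kp_zero_neg 1 Y
    simpa using this
  · have := kp_zero_neg 2 Y
    simpa using this

end Pool.Agent.E8helper99.FV
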